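import Mathlib
import Pool.Agent.H78.XQ.Targets

set_option autoImplicit false

namespace Pool.Agent.H20.XQ

open Pool.Agent.H78.XQ Pool.Agent.H6.NB Pool.Agent.H70.OQ Pool.Agent.H70.EH Pool.Agent.H70.EI

theorem dc3 (hLOA : Pool.Agent.H70.EI.T_LOA) (hCOD : Pool.Agent.H6.NB.T_COD) : T_DC3 := by
  intro V W ρ i
  rcases i with p | a
  · refine ⟨(V p.1).time p.2.length + (2 * (hm V p).length +
      2 * (2 * (hm V p).length + qs (hm V p)) + 4) + (2 * (hm V p).length +
      2 * wln (hm V p) + 4), ?_⟩
    intro O O' h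
    have hlang : p.2 ∈ (V p.1).lang O ↔ p.2 ∈ (V p.1).lang O' :=
      hLOA V W ρ (.inl p) ((V p.1).time p.2.length) le_rfl O O' fun w hw => h w (by omega)
    have hcpx : cps O (hm V p) = cps O' (hm V p) := by
      funext u v
      unfold cps cpx
      apply h
      unfold pos
      rw [hCOD.2, List.length_append, List.length_ofFn, List.length_ofFn]
      have hb : v.1.toNat ≤ 1 := Bool.toNat_le _
      omega
    have hcst : cst O (hm V p) = cst O' (hm V p) := by
      funext z
      unfold cst wps
      apply h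
      rw [hCOD.2, List.length_ofFn]
      omega
    have hdec : @decide (p.2 ∈ (V p.1).lang O) (Classical.propDecidable _) =
        @decide (p.2 ∈ (V p.1).lang O') (Classical.propDecidable _) := by
      classical
      by_cases hx : p.2 ∈ (V p.1).lang O
      · exact (decide_eq_true hx).trans (decide_eq_true (hlang.1 hx)).symm
      · exact (decide_eq_false hx).trans (decide_eq_false fun hx' => hx (hlang.2 hx')).symm
    show OkB (qs (hm V p)) (hm V p).length (rns (hm V p)) (wln (hm V p))
        (@decide (p.2 ∈ (V p.1).lang O) (Classical.propDecidable _))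
        (cps O (hm V p), cst O (hm V p)) ↔
      OkB (qs (hm V p)) (hm V p).length (rns (hm V p)) (wln (hm V p))
        (@decide (p.2 ∈ (V p.1).lang O') (Classical.propDecidable _))
        (cps O' (hm V p), cst O' (hm V p))
    rw [hcpx, hcst, hdec]
  · refine ⟨(2 ^ ρ a) ^ (W a).2.c + (W a).2.c + 2 ^ ((W a).1 + 3) * 2 ^ ρ a + 1, ?_⟩
    intro O O' h
    exact hLOA V W ρ (.inr a) _ le_rfl O O' h

end Pool.Agent.H20.XQ
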