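import Mathlib
import Pool.Agent.H78.XQ.Targets

set_option autoImplicit false

namespace Pool.Agent.H20.XQ

open Finset Pool.Agent.H78.XQ Pool.Agent.H6.NB Pool.Agent.H70.OQ Pool.Agent.H70.EH Pool.Agent.H70.EI

lemma mem_ws {V : Type} [Fintype V] [DecidableEq V] (κ : V → Option Bool) (W : ℕ) (y : V → Bool) :
    y ∈ ws κ W ↔ (Pool.Agent.H68.AC.Ext κ y ∧ nt y = W) := by
  classical
  unfold ws
  simp only [Finset.mem_filter, Finset.mem_univ, true_and]

lemma mem_ws_none {V : Type} [Fintype V] [DecidableEq V] (W : ℕ) (y : V → Bool) (h : nt y = W) :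
    y ∈ ws (fun _ : V => none) W := by
  rw [mem_ws]
  refine ⟨?_, h⟩
  intro v b hb
  cases hb

theorem mas (hMUV : Pool.Agent.H70.EH.T_MUV) : T_MAS := by
  classical
  intro q l R r
  have hprod : ∀ b : Bool, ∑ P : (Fin (2 * l) → Bool) → VV q → Bool, ∏ u, mv b q (P u) = 1 := by
    intro b
    have h0 : ∑ P : (Fin (2 * l) → Bool) → VV q → Bool, ∏ u, mv b q (P u) =
        ∏ _u : Fin (2 * l) → Bool, ∑ p', mv b q p' := by
      rw [Finset.prod_univ_sum, Fintype.piFinset_univ]
    rw [Finset.prod_congr rfl fun u _ => (hMUV b _).2.1, Finset.prod_const_one] at h0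
    exact h0
  have hnn : ∀ (b : Bool) (P : (Fin (2 * l) → Bool) → VV q → Bool), 0 ≤ ∏ u, mv b q (P u) :=
    fun b P => Finset.prod_nonneg fun u _ => (hMUV b q).1 _
  refine ⟨?_, ?_, ?_⟩
  · intro c
    unfold m0
    exact div_nonneg (hnn false c.1) (by positivity)
  · rw [Fintype.sum_prod_type]
    have h1 : ∀ P : (Fin (2 * l) → Bool) → VV q → Bool,
        ∑ h : (Fin r → Bool) → Bool, m0 q l r (P, h) = ∏ u, mv false q (P u) := by
      intro P
      have h5 : ∀ h : (Fin r → Bool) → Bool, m0 q l r (P, h) =
          (∏ u, mv false q (P u)) / 2 ^ 2 ^ r := fun h => rfl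
      rw [Finset.sum_congr rfl fun h _ => h5 h, Finset.sum_const, Finset.card_univ, nsmul_eq_mul]
      have hc : (Fintype.card ((Fin r → Bool) → Bool) : ℝ) = 2 ^ 2 ^ r := by
        rw [Fintype.card_fun, Fintype.card_fun, Fintype.card_bool, Fintype.card_fin]
        push_cast
        rfl
      rw [hc]
      field_simp
    rw [Finset.sum_congr rfl fun P _ => h1 P]
    exact hprod false
  · intro b
    refine ⟨?_, ?_⟩
    · intro c
      unfold mB
      split_ifs
      · exact div_nonneg (hnn b c.1) (by positivity)
      · exact le_rfl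
    · rw [Fintype.sum_prod_type]
      have h1 : ∀ P : (Fin (2 * l) → Bool) → VV q → Bool,
          ∑ h : (Fin r → Bool) → Bool, mB q l R r b (P, h) ≤ ∏ u, mv b q (P u) := by
        intro P
        by_cases hex : ∃ h₀ : (Fin r → Bool) → Bool, Fit q R r b P h₀
        · obtain ⟨h₀, hh₀⟩ := hex
          set W := nt h₀ with hW
          have hW0 : h₀ ∈ ws (fun _ : Fin r → Bool => none) W := mem_ws_none W h₀ rfl
          have hcard : (0 : ℝ) < ((ws (fun _ : Fin r → Bool => none) W).card : ℝ) := by
            exact_mod_cast Finset.card_pos.2 ⟨h₀, hW0⟩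
          have h2 : ∀ h : (Fin r → Bool) → Bool, mB q l R r b (P, h) ≤
              if h ∈ ws (fun _ : Fin r → Bool => none) W then
                (∏ u, mv b q (P u)) / ((ws (fun _ : Fin r → Bool => none) W).card : ℝ) else 0 := by
            intro h
            by_cases hok : OkB q l R r b (P, h)
            · have hf : Fit q R r b P h := hok.2
              have hnt : nt h = W := by
                have e1 : (nt h : ℝ) / 2 ^ r = (nt h₀ : ℝ) / 2 ^ r := by
                  unfold Fit at hf hh₀
                  rw [hf, hh₀]
                have e2 : (nt h : ℝ) = (nt h₀ : ℝ) := by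
                  have hp : (2 : ℝ) ^ r ≠ 0 := by positivity
                  field_simp at e1
                  exact e1
                exact_mod_cast e2
              rw [if_pos (mem_ws_none W h hnt)]
              unfold mB
              rw [if_pos hok]
              show (∏ u, mv b q (P u)) / ((ws (fun _ : Fin r → Bool => none) (nt h)).card : ℝ) ≤ _
              rw [hnt]
            · have h0 : mB q l R r b (P, h) = 0 := by
                unfold mB
                rw [if_neg hok]
              rw [h0]
              split_ifs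
              · exact div_nonneg (hnn b P) hcard.le
              · exact le_rfl
          refine (Finset.sum_le_sum fun h _ => h2 h).trans ?_
          rw [Finset.sum_ite_mem, Finset.univ_inter, Finset.sum_const, nsmul_eq_mul]
          refine le_of_eq ?_
          field_simp
        · have h2 : ∀ h : (Fin r → Bool) → Bool, mB q l R r b (P, h) = 0 := by
            intro h
            unfold mB
            rw [if_neg]
            intro hok
            exact hex ⟨h, hok.2⟩
          rw [Finset.sum_congr rfl fun h _ => h2 h, Finset.sum_const_zero]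
          exact hnn b P
      calc ∑ P : (Fin (2 * l) → Bool) → VV q → Bool, ∑ h : (Fin r → Bool) → Bool,
            mB q l R r b (P, h) ≤ ∑ P : (Fin (2 * l) → Bool) → VV q → Bool, ∏ u, mv b q (P u) :=
            Finset.sum_le_sum fun P _ => h1 P
        _ = 1 := hprod b

end Pool.Agent.H20.XQ
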